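import Pool.Agent.H73.KFIN.Restr

/-!
# From the number of cells to the volume of shaded tubes, with a power of the scale as a loss
-/

set_option autoImplicit false

open MeasureTheory ENNReal
open scoped RealInnerProductSpace

namespace Pool.KRN73

open Pool.Agent.H53.Kak Pool.Agent.H32.Dense Pool.Agent.H53.Dns
open Pool.KFIN (CountE)

variable {d : ℕ}

/-- **The form for tubes from the discrete form**, with the same power of `δ` as a loss. -/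
theorem dens_of_count {t P c₀ : ℝ} (ht : 0 < t) (hP : 1 ≤ P) (hc : 0 < c₀)
    (h : CountE d t P c₀) :
    ∃ c : ℝ, 0 < c ∧ ∀ δ : ℝ, 0 < δ → δ < 1 → ∀ (ι : Type) (S : Finset ι)
    (x₀ e : ι → E d), Fam δ e S → ∀ (X : Set (E d)), MeasurableSet X → ∀ lam : ℝ, 0 < lam →
    lam ≤ 1 →
    (∀ i ∈ S, ENNReal.ofReal (lam * δ ^ d) ≤ volume (X ∩ tube δ (x₀ i) (e i))) →
    ENNReal.ofReal (c * δ ^ t * (lam ^ (P + 1) * δ ^ d * (S.card : ℝ))) ≤ volume X := by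
  have hd0 : (0 : ℝ) ≤ d := Nat.cast_nonneg d
  have hCv := Cv_pos d
  have hCw := one_le_Cw d
  have hCw0 : 0 < Cw d := by linarith
  have hη0 : 0 < 1 / (P + 1) := by positivity
  obtain ⟨m₀, hm₀⟩ : ∃ m₀ : ℕ, 10 * Cv d < 2 ^ m₀ := pow_unbounded_of_one_lt _ (by norm_num)
  obtain ⟨A₁, hA₁⟩ : ∃ A₁ : ℝ, A₁ = m₀ + 1 + 2 / (1 / (P + 1)) := ⟨_, rfl⟩
  have hA₁0 : 0 < A₁ := by rw [hA₁]; positivity
  obtain ⟨c₁, hc₁⟩ : ∃ c₁ : ℝ, c₁ = c₀ * (Cv d / 4) * (16 * Cv d) ^ (-P) * (Cw d)⁻¹ *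
    (2 * ((d : ℝ) + 1))⁻¹ := ⟨_, rfl⟩
  have hc₁0 : 0 < c₁ := by rw [hc₁]; positivity
  refine ⟨c₁ * (A₁ ^ (P + 1))⁻¹ / 2 / 11 ^ d, by positivity, ?_⟩
  intro δ hδ hδ1 ι S c e hF X hX lam hlam hlam1 hvol
  rcases S.eq_empty_or_nonempty with rfl | hSne
  · rw [Finset.card_empty, Nat.cast_zero, mul_zero, mul_zero, ENNReal.ofReal_zero]
    exact bot_le
  have hl2 : 0 < lam / 2 := by positivity
  have hl21 : lam / 2 < 1 := by linarith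
  obtain ⟨S₁, hS1, hS2⟩ := Pool.Agent.H53.Kak.num_levels hl2 hl21 hη0 m₀
  rw [← hA₁] at hS2
  have hlinv : 1 < (lam / 2)⁻¹ := (one_lt_inv₀ hl2).mpr hl21
  have hS₁ : 0 < S₁ := by
    rcases Nat.eq_zero_or_pos S₁ with h0 | h0
    · rw [h0, pow_zero] at hS1
      have : (1 : ℝ) ≤ 2 ^ m₀ := one_le_pow₀ (by norm_num)
      nlinarith
    · exact h0
  have hS : 5 * (Cv d * (1 / 2) ^ S₁) ≤ lam / 2 := by
    have h1 : 10 * Cv d * (lam / 2)⁻¹ ≤ 2 ^ S₁ := by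
      refine le_trans ?_ hS1.le
      gcongr
    have h2 : 10 * Cv d ≤ lam / 2 * 2 ^ S₁ := by
      calc 10 * Cv d = lam / 2 * (10 * Cv d * (lam / 2)⁻¹) := by field_simp
        _ ≤ _ := by gcongr
    rw [one_div, inv_pow]
    have h3 : 5 * (Cv d * ((2 : ℝ) ^ S₁)⁻¹) ≤ lam / 2 / 2 := by
      rw [← div_eq_mul_inv, ← mul_div_assoc, div_le_iff₀ (by positivity)]
      linarith
    linarith
  have hS₁r : (0 : ℝ) < S₁ := by exact_mod_cast hS₁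
  have h11 : (0 : ℝ) < 11 ^ d := by positivity
  have hδt : 0 < δ ^ t := Real.rpow_pos_of_pos hδ t
  obtain ⟨M, hM⟩ : ∃ M : ℝ, M = lam ^ P * δ ^ d * (S.card : ℝ) := ⟨_, rfl⟩
  have hM0 : 0 ≤ M := by rw [hM]; positivity
  have hmain := restr_main (a := 1) (P := P) (ε := t) (c₀ := c₀) le_rfl hP ht hc h hδ hδ1 S hSne
    c e hF hX hlam hvol hS₁ hS
  rw [div_one, Real.rpow_one, ← hc₁, ← hM] at hmain
  have h2 : (S₁ : ℝ) ^ (P + 1) ≤ A₁ ^ (P + 1) * (lam / 2)⁻¹ := by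
    calc (S₁ : ℝ) ^ (P + 1) ≤ (A₁ * (lam / 2) ^ (-(1 / (P + 1)))) ^ (P + 1) := by gcongr
      _ = A₁ ^ (P + 1) * (lam / 2)⁻¹ := by
          rw [Real.mul_rpow hA₁0.le (by positivity), ← Real.rpow_mul hl2.le]
          have : -(1 / (P + 1)) * (P + 1) = -1 := by field_simp
          rw [this, Real.rpow_neg_one]
  have h3 : (A₁ ^ (P + 1))⁻¹ * (lam / 2) ≤ ((S₁ : ℝ) ^ (P + 1))⁻¹ := by
    have h5 : (A₁ ^ (P + 1) * (lam / 2)⁻¹)⁻¹ ≤ ((S₁ : ℝ) ^ (P + 1))⁻¹ :=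
      inv_anti₀ (by positivity) h2
    rwa [mul_inv, inv_inv] at h5
  have h6 : ENNReal.ofReal (c₁ * (A₁ ^ (P + 1))⁻¹ / 2 / 11 ^ d * δ ^ t *
      (lam ^ (P + 1) * δ ^ d * (S.card : ℝ))) *
      ((11 ^ d : ℕ) : ℝ≥0∞) ≤ ((11 ^ d : ℕ) : ℝ≥0∞) * volume X := by
    refine le_trans ?_ hmain
    have h7 : ((11 ^ d : ℕ) : ℝ≥0∞) = ENNReal.ofReal (11 ^ d) := by
      rw [← ENNReal.ofReal_natCast]; push_cast; rfl
    rw [h7, ← ENNReal.ofReal_mul (by positivity)]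
    apply ENNReal.ofReal_le_ofReal
    have h8 : lam ^ (P + 1) = lam ^ P * lam := by
      rw [Real.rpow_add hlam, Real.rpow_one]
    calc c₁ * (A₁ ^ (P + 1))⁻¹ / 2 / 11 ^ d * δ ^ t *
          (lam ^ (P + 1) * δ ^ d * (S.card : ℝ)) * 11 ^ d
        = c₁ * ((A₁ ^ (P + 1))⁻¹ * (lam / 2)) * δ ^ t * M := by
          rw [h8, hM]; field_simp
      _ ≤ c₁ * ((S₁ : ℝ) ^ (P + 1))⁻¹ * δ ^ t * M := by gcongr
  rw [mul_comm] at h6
  have h8 : ((11 ^ d : ℕ) : ℝ≥0∞) ≠ 0 := by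
    have : (11 ^ d : ℕ) ≠ 0 := by positivity
    exact_mod_cast this
  exact (ENNReal.mul_le_mul_iff_right h8 (ENNReal.natCast_ne_top _)).mp h6

end Pool.KRN73
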