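import Pool.Agent.H73.KRN.Grp
import Pool.Agent.H73.KRN.Dns

/-!
# GEO1: density bounds for tubes from the entropy bound `EF`
-/

set_option autoImplicit false

namespace Pool.KRN73

open MeasureTheory
open Pool.KRN

/-- **GEO1.** -/
theorem geoOne : GeoOneStmt := by
  intro d s hd hs hsd h ε hε
  obtain ⟨P, c₀, hP, hc₀, h1⟩ := countF_of_EF hsd h hε
  obtain ⟨c₁, hc₁, h2⟩ := countB_of_countF hP hc₀ h1
  have e1 : (d : ℝ) - (s - ε) = d - s + ε := by ring
  rw [e1] at h2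
  obtain ⟨c₂, hc₂, h3⟩ := countE_of_countB hc₁ h2
  obtain ⟨c, hc, h4⟩ := dens_of_count (by linarith) hP hc₂ h3
  exact ⟨c, P + 1, hc, h4⟩

end Pool.KRN73
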