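import Pool.Agent.H73.KFIN.Count
import Pool.Agent.H9.KRN.Defs

/-!
# The number of cells met by a large family of lines, from the entropy bound `EF`

`CountF`: the counting inequality for large families of lines. `countF_of_EF`: it follows from the entropy bound
for families with nearly uniform directions.
-/

set_option autoImplicit false

namespace Pool.KRN73

open Finset Real
open Pool.Agent.H49.Ent Pool.Agent.H32.Dense Pool.STK
open Pool.KFIN
open Pool.KRN (EF)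

/-- The counting inequality for large families of lines with bounded base points: `2 ^ (s m)` cells at most times, up to a power of the
density and of the proportion of directions. -/
def CountF (d : ℕ) (s P c : ℝ) : Prop :=
  ∀ (m N : ℕ) (u : Fin N → Fin d → ℝ) (v : Fin N → Fin d → ℤ)
    (A : Fin N → Finset ℤ) (κ : ℝ), 0 < κ → Function.Injective v →
    (∀ i k, |u i k| ≤ 2 ^ m) → (∀ i k, |v i k| ≤ 2 ^ m) →
    (∀ i, A i ⊆ Finset.Ico 0 (2 ^ m : ℤ)) → (∀ i, κ * 2 ^ m ≤ (A i).card) →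
    c * ((2 : ℝ) ^ m) ^ s * (2 ^ m * κ ^ P * ((N : ℝ) / 2 ^ (m * d)) ^ P) ≤
      ∑ j ∈ Finset.Ico 0 (2 ^ m : ℤ),
        (((univ.filter fun i => j ∈ A i).image fun i => rd (pos (2 ^ m) (u i) (v i) j)).card : ℝ)

/-- **The counting inequality for large families of lines** from the entropy bound. -/
theorem countF_of_EF {d : ℕ} {s : ℝ} (hs : s ≤ d) (h : EF d s) {ε : ℝ} (hε : 0 < ε) :
    ∃ P c : ℝ, 1 ≤ P ∧ 0 < c ∧ CountF d (s - ε) P c := by
  have hlog : 0 < Real.log 2 := Real.log_pos (by norm_num)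
  have hlog1 : Real.log 2 ≤ 1 := by
    have := Real.log_le_sub_one_of_pos (show (0 : ℝ) < 2 by norm_num)
    linarith
  obtain ⟨θ, hθ, J₀, hJ⟩ := h ε hε
  obtain ⟨σ, hσ⟩ : ∃ σ : ℝ, σ = θ * Real.log 2 / 2 := ⟨_, rfl⟩
  have hσ0 : 0 < σ := by rw [hσ]; positivity
  obtain ⟨P, hP⟩ : ∃ P : ℝ, P = max 1 (((d : ℝ) + 1) * Real.log 2 / σ) := ⟨_, rfl⟩
  have hP1 : 1 ≤ P := hP ▸ le_max_left _ _
  have hP3 : ((d : ℝ) + 1) * Real.log 2 ≤ σ * P := by
    have : ((d : ℝ) + 1) * Real.log 2 / σ ≤ P := hP ▸ le_max_right _ _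
    rw [div_le_iff₀ hσ0] at this
    linarith
  have h3P : (1 : ℝ) ≤ (3 ^ d : ℝ) ^ P :=
    Real.one_le_rpow (one_le_pow₀ (by norm_num)) (by linarith)
  obtain ⟨c, hc⟩ : ∃ c : ℝ, c = ((3 ^ d : ℝ) ^ P * 2 ^ (J₀ * (d + 1)))⁻¹ := ⟨_, rfl⟩
  have hc0 : 0 < c := by rw [hc]; positivity
  have hc1 : c * ((3 ^ d : ℝ) ^ P * 2 ^ (J₀ * (d + 1))) = 1 := by
    rw [hc]; exact inv_mul_cancel₀ (by positivity)
  have h2J : (1 : ℝ) ≤ 2 ^ (J₀ * (d + 1)) := one_le_pow₀ (by norm_num)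
  have hc2 : c * (3 ^ d : ℝ) ^ P ≤ 1 := by
    calc c * (3 ^ d : ℝ) ^ P = c * ((3 ^ d : ℝ) ^ P * 1) := by ring
      _ ≤ c * ((3 ^ d : ℝ) ^ P * 2 ^ (J₀ * (d + 1))) := by gcongr
      _ = 1 := hc1
  have hc3 : c ≤ 1 := by
    calc c = c * 1 := (mul_one c).symm
      _ ≤ c * (3 ^ d : ℝ) ^ P := by gcongr
      _ ≤ 1 := hc2
  refine ⟨P, c, hP1, hc0, ?_⟩
  intro m N u v A κ hκ hinj hu hv hA hcard
  obtain ⟨Sg, hS⟩ : ∃ x : ℝ, x = ∑ j ∈ Finset.Ico 0 (2 ^ m : ℤ),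
        (((univ.filter fun i => j ∈ A i).image fun i =>
          rd (pos (2 ^ m) (u i) (v i) j)).card : ℝ) := ⟨_, rfl⟩
  rw [← hS]
  have hS0 : 0 ≤ Sg := by rw [hS]; exact Finset.sum_nonneg fun _ _ => Nat.cast_nonneg _
  rcases Nat.eq_zero_or_pos N with hN | hN
  · rw [hN, Nat.cast_zero, zero_div, Real.zero_rpow (by linarith), mul_zero, mul_zero]
    exact hS0
  have hW : (0 : ℝ) < 2 ^ m := by positivity
  have hW1 : (1 : ℝ) ≤ 2 ^ m := one_le_pow₀ (by norm_num)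
  have hWd : (0 : ℝ) < 2 ^ (m * d) := by positivity
  have hκ1 : κ ≤ 1 := by
    have h1 := (hcard ⟨0, hN⟩).trans (card_le_pow hA ⟨0, hN⟩)
    have h2 : κ * 2 ^ m ≤ 1 * 2 ^ m := by linarith
    exact le_of_mul_le_mul_right h2 hW
  have hNle := card_lines hinj hv
  obtain ⟨ν, hν⟩ : ∃ ν : ℝ, ν = (N : ℝ) / 2 ^ (m * d) := ⟨_, rfl⟩
  rw [← hν]
  have hNr : (0 : ℝ) < N := by exact_mod_cast hN
  have hν0 : 0 < ν := by rw [hν]; positivity
  have hν3 : ν ≤ 3 ^ d := by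
    rw [hν, div_le_iff₀ hWd]
    exact hNle
  have hνN : ν * 2 ^ (m * d) = N := by
    rw [hν]
    exact div_mul_cancel₀ _ hWd.ne'
  have hνP : ν ^ P ≤ (3 ^ d : ℝ) ^ P := Real.rpow_le_rpow hν0.le hν3 (by linarith)
  have hνP0 : 0 < ν ^ P := by positivity
  have hne : Nonempty (Om m A) := by
    have h1 : 0 < (A ⟨0, hN⟩).card := by
      have := lt_of_lt_of_le (by positivity) (hcard ⟨0, hN⟩)
      exact_mod_cast this
    have h2 : (univ.filter fun w : Om m A => w.1.1 = (⟨0, hN⟩ : Fin N)).card =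
      (A ⟨0, hN⟩).card := card_fib A hA _
    rw [← h2] at h1
    obtain ⟨w, -⟩ := Finset.card_pos.mp h1
    exact ⟨w⟩
  have hsle : ((2 : ℝ) ^ m) ^ (s - ε) ≤ 2 ^ (m * d) := by
    calc ((2 : ℝ) ^ m) ^ (s - ε) ≤ ((2 : ℝ) ^ m) ^ (d : ℝ) :=
          Real.rpow_le_rpow_of_exponent_le hW1 (by linarith)
      _ = 2 ^ (m * d) := by rw [Real.rpow_natCast, ← pow_mul]
  have hs0 : 0 < ((2 : ℝ) ^ m) ^ (s - ε) := by positivity
  have hκP1 : κ ^ P ≤ 1 := Real.rpow_le_one hκ.le hκ1 (by linarith)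
  have hκP0 : 0 < κ ^ P := by positivity
  have hS1 : 1 ≤ Sg := by
    obtain ⟨w⟩ := hne
    have h1 : (1 : ℝ) ≤ (((univ.filter fun i => ((w.1.2 : ℕ) : ℤ) ∈ A i).image fun i =>
          rd (pos (2 ^ m) (u i) (v i) ((w.1.2 : ℕ) : ℤ))).card : ℝ) := by
      have h2 : rd (pos (2 ^ m) (u w.1.1) (v w.1.1) ((w.1.2 : ℕ) : ℤ)) ∈
          ((univ.filter fun i => ((w.1.2 : ℕ) : ℤ) ∈ A i).image fun i =>
          rd (pos (2 ^ m) (u i) (v i) ((w.1.2 : ℕ) : ℤ))) :=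
        Finset.mem_image_of_mem (fun i => rd (pos (2 ^ m) (u i) (v i) ((w.1.2 : ℕ) : ℤ)))
          (Finset.mem_filter.mpr ⟨Finset.mem_univ _, w.2⟩)
      exact_mod_cast Finset.card_pos.mpr ⟨_, h2⟩
    rw [hS]
    refine h1.trans ?_
    exact Finset.single_le_sum (f := fun j : ℤ => (((univ.filter fun i => j ∈ A i).image fun i =>
          rd (pos (2 ^ m) (u i) (v i) j)).card : ℝ)) (fun _ _ => Nat.cast_nonneg _) (hA _ w.2)
  by_cases hm : m < J₀
  · -- few scales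
    have h1 : (2 : ℝ) ^ (m * d) * 2 ^ m ≤ 2 ^ (J₀ * (d + 1)) := by
      rw [← pow_add]
      apply pow_le_pow_right₀ (by norm_num)
      have : m * (d + 1) ≤ J₀ * (d + 1) := Nat.mul_le_mul_right _ hm.le
      calc m * d + m = m * (d + 1) := by ring
        _ ≤ _ := this
    calc c * ((2 : ℝ) ^ m) ^ (s - ε) * (2 ^ m * κ ^ P * ν ^ P) ≤
          c * 2 ^ (m * d) * (2 ^ m * 1 * (3 ^ d : ℝ) ^ P) := by gcongr
      _ = c * ((3 ^ d : ℝ) ^ P * (2 ^ (m * d) * 2 ^ m)) := by ring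
      _ ≤ c * ((3 ^ d : ℝ) ^ P * 2 ^ (J₀ * (d + 1))) := by gcongr
      _ = 1 := hc1
      _ ≤ Sg := hS1
  rw [not_lt] at hm
  -- the trivial bound
  have htriv : ∀ x : ℝ, 0 < x → x < Real.exp (-(σ * m)) →
      x ^ P ≤ ((2 : ℝ) ^ (m * d) * 2 ^ m)⁻¹ := by
    intro x hx hx1
    have h2 : x ^ P ≤ (Real.exp (-(σ * m))) ^ P := by
      apply Real.rpow_le_rpow hx.le hx1.le (by linarith)
    refine h2.trans ?_
    rw [← Real.exp_mul, ← pow_add, ← Real.rpow_natCast 2, ← Real.rpow_neg (by norm_num),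
      Real.rpow_def_of_pos (by norm_num : (0 : ℝ) < 2)]
    apply Real.exp_le_exp.mpr
    push_cast
    have h3 : ((d : ℝ) + 1) * Real.log 2 * m ≤ σ * P * m := by gcongr
    linarith
  by_cases hk : κ < Real.exp (-(σ * m))
  · -- small density
    have h1 := htriv κ hκ hk
    calc c * ((2 : ℝ) ^ m) ^ (s - ε) * (2 ^ m * κ ^ P * ν ^ P) ≤
          c * 2 ^ (m * d) * (2 ^ m * ((2 : ℝ) ^ (m * d) * 2 ^ m)⁻¹ * (3 ^ d : ℝ) ^ P) := by gcongr
      _ = c * (3 ^ d : ℝ) ^ P := by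
          field_simp
      _ ≤ 1 := hc2
      _ ≤ Sg := hS1
  by_cases hk2 : ν < Real.exp (-(σ * m))
  · -- few directions
    have h1 := htriv ν hν0 hk2
    calc c * ((2 : ℝ) ^ m) ^ (s - ε) * (2 ^ m * κ ^ P * ν ^ P) ≤
          c * 2 ^ (m * d) * (2 ^ m * 1 * ((2 : ℝ) ^ (m * d) * 2 ^ m)⁻¹) := by gcongr
      _ = c := by
          field_simp
      _ ≤ 1 := hc3
      _ ≤ Sg := hS1
  rw [not_lt] at hk hk2
  have lk : -(σ * m) ≤ Real.log κ := by
    have := Real.log_le_log (Real.exp_pos _) hk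
    rwa [Real.log_exp] at this
  have ln : -(σ * m) ≤ Real.log ν := by
    have := Real.log_le_log (Real.exp_pos _) hk2
    rwa [Real.log_exp] at this
  have hp := (fam u v A hv hne).isLaw
  have hσm : 0 ≤ σ * m := by positivity
  have hσθ : 2 * (σ * m) = θ * (m * Real.log 2) := by
    rw [hσ]
    ring
  have hEF : (s - ε) * (m * Real.log 2) ≤ CH (fam u v A hv hne).p ((fam u v A hv hne).X m)
      (fam u v A hv hne).T := by
    apply hJ m hm
    · intro w k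
      show |u w.1.1 k / 2 ^ m| ≤ 1
      rw [abs_div, abs_of_pos hW, div_le_one hW]
      exact hu _ _
    · have h1 := fam_T (u := u) hv hne hinj hA (b := κ * 2 ^ m) (by positivity) hcard
      refine le_trans ?_ h1
      rw [Real.log_mul hκ.ne' hW.ne', Real.log_pow]
      have h2 : θ * (m * Real.log 2) ≤ θ * m := by
        have : (m : ℝ) * Real.log 2 ≤ m * 1 := by gcongr
        calc θ * (m * Real.log 2) ≤ θ * (m * 1) := by gcongr
          _ = θ * m := by ring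
      linarith
    · have h1 := fam_HD (u := u) hv hne hinj hA hκ hcard
      have h2 : CH (fam u v A hv hne).p ((fam u v A hv hne).D m) (fam u v A hv hne).Z ≤
          H (fam u v A hv hne).p ((fam u v A hv hne).D m) := by
        have h3 := subadd hp.nonneg hp.sum_one (X := (fam u v A hv hne).D m)
          (Y := (fam u v A hv hne).Z) (W := fun ω => ((fam u v A hv hne).D m ω,
            (fam u v A hv hne).Z ω)) (fun _ _ _ _ hh => hh)
        rw [CH]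
        linarith
      refine le_trans ?_ (h1.trans h2)
      rw [Real.log_mul hκ.ne' hNr.ne', ← hνN, Real.log_mul hν0.ne' hWd.ne', Real.log_pow]
      push_cast
      linarith
  have h1 := fam_HX (u := u) hv hne hA
  have h2 := fam_HT (u := u) hv hne hA hκ hcard
  rw [← hS] at h1
  have h3 : CH (fam u v A hv hne).p ((fam u v A hv hne).X m) (fam u v A hv hne).T ≤
      CH (fam u v A hv hne).p ((fam u v A hv hne).X m) (fam u v A hv hne).W :=
    CH_mono_cond hp.nonneg fun _ _ _ _ hh => Prod.ext hh rfl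
  have h5 : CH (fam u v A hv hne).p ((fam u v A hv hne).X m)
      (fam u v A hv hne).W = H (fam u v A hv hne).p (fun ω => ((fam u v A hv hne).X m ω,
        (fam u v A hv hne).W ω)) - H (fam u v A hv hne).p (fam u v A hv hne).W := rfl
  have h6 : Real.log (((2 : ℝ) ^ m) ^ (s - ε) * (κ * 2 ^ m)) ≤ Real.log Sg := by
    rw [Real.log_mul hs0.ne' (by positivity), Real.log_rpow hW, Real.log_pow]
    linarith
  have h7 : ((2 : ℝ) ^ m) ^ (s - ε) * (κ * 2 ^ m) ≤ Sg :=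
    (Real.log_le_log_iff (by positivity) (by linarith)).mp h6
  have h8 : κ ^ P ≤ κ := by
    calc κ ^ P ≤ κ ^ (1 : ℝ) := Real.rpow_le_rpow_of_exponent_ge hκ hκ1 hP1
      _ = κ := Real.rpow_one κ
  calc c * ((2 : ℝ) ^ m) ^ (s - ε) * (2 ^ m * κ ^ P * ν ^ P) ≤
        c * ((2 : ℝ) ^ m) ^ (s - ε) * (2 ^ m * κ * (3 ^ d : ℝ) ^ P) := by gcongr
    _ = (c * (3 ^ d : ℝ) ^ P) * (((2 : ℝ) ^ m) ^ (s - ε) * (κ * 2 ^ m)) := by ring
    _ ≤ 1 * (((2 : ℝ) ^ m) ^ (s - ε) * (κ * 2 ^ m)) := by gcongr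
    _ ≤ Sg := by rwa [one_mul]

end Pool.KRN73
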