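import Pool.Agent.H73.KRN.Shr

/-!
# The base points need not be bounded

`countE_of_countB`: the counting inequality, linear in the number of lines, for families with bounded
base points gives the one for all families: the lines are grouped by the unit cube of the base point.
-/

set_option autoImplicit false

namespace Pool.KRN73

open Finset Real
open Pool.Agent.H32.Dense
open Pool.KFIN (CountE)

/-- A cell meets the lines of few groups. -/
lemma grp_mult {d m : ℕ} {x z : Fin d → ℤ} {u : Fin d → ℝ} {v : Fin d → ℤ} {j : ℤ}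
    (hj0 : 0 ≤ j) (hj1 : j < 2 ^ m) (hv : ∀ k, |v k| ≤ 2 ^ m)
    (hz : ∀ k, z k = ⌊u k / 2 ^ m⌋) (hx : rd (pos (2 ^ m) u v j) = x) :
    z ∈ Fintype.piFinset fun k : Fin d =>
      Finset.Icc (⌊(x k : ℝ) / 2 ^ m⌋ - 2) (⌊(x k : ℝ) / 2 ^ m⌋ + 2) := by
  rw [Fintype.mem_piFinset]
  intro k
  have hW : (0 : ℝ) < 2 ^ m := by positivity
  have hW1 : (1 : ℝ) ≤ 2 ^ m := one_le_pow₀ (by norm_num)
  have hxk : x k = ⌊u k + (j : ℝ) / ((2 ^ m : ℕ) : ℝ) * v k⌋ := by
    rw [← hx]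
    rfl
  have h1 := Int.floor_le (u k + (j : ℝ) / ((2 ^ m : ℕ) : ℝ) * v k)
  have h2 := Int.lt_floor_add_one (u k + (j : ℝ) / ((2 ^ m : ℕ) : ℝ) * v k)
  rw [← hxk] at h1 h2
  have hj0' : (0 : ℝ) ≤ j := by exact_mod_cast hj0
  have hj1' : (j : ℝ) ≤ 2 ^ m := by exact_mod_cast hj1.le
  have hvk : |(v k : ℝ)| ≤ 2 ^ m := by
    have := hv k
    have h3 : ((|v k| : ℤ) : ℝ) ≤ ((2 ^ m : ℤ) : ℝ) := Int.cast_le.mpr this
    rw [Int.cast_abs] at h3
    push_cast at h3
    exact h3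
  have h3 : |(j : ℝ) / ((2 ^ m : ℕ) : ℝ) * v k| ≤ 2 ^ m := by
    rw [abs_mul, abs_div, abs_of_nonneg hj0']
    push_cast
    rw [abs_of_pos hW]
    calc (j : ℝ) / 2 ^ m * |(v k : ℝ)| ≤ 1 * 2 ^ m := by
          refine mul_le_mul ?_ hvk (abs_nonneg _) zero_le_one
          rw [div_le_one hW]
          exact hj1'
      _ = 2 ^ m := one_mul _
  have h4 := abs_le.1 h3
  rw [mem_Icc, hz k]
  have e1 : (x k : ℝ) / 2 ^ m + 2 = (x k + 2 * 2 ^ m) / 2 ^ m := by
    field_simp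
  have e2 : (x k : ℝ) / 2 ^ m - 2 = (x k - 2 * 2 ^ m) / 2 ^ m := by
    field_simp
  constructor
  · rw [Int.le_floor]
    push_cast
    have h5 := Int.floor_le ((x k : ℝ) / 2 ^ m)
    have h6 : (x k : ℝ) / 2 ^ m - 2 ≤ u k / 2 ^ m := by
      rw [e2]
      refine (div_le_div_iff_of_pos_right hW).2 ?_
      linarith [h4.2]
    linarith
  · have h6 : u k / 2 ^ m ≤ (x k : ℝ) / 2 ^ m + 2 := by
      rw [e1]
      refine (div_le_div_iff_of_pos_right hW).2 ?_
      linarith [h4.1]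
    have h7 := Int.floor_le_floor h6
    have h8 : ⌊(x k : ℝ) / 2 ^ m + 2⌋ = ⌊(x k : ℝ) / 2 ^ m⌋ + 2 := by
      exact_mod_cast Int.floor_add_intCast ((x k : ℝ) / 2 ^ m) 2
    rw [h8] at h7
    exact h7

/-- The number of cells of the groups. -/
lemma grp_sum {d m N : ℕ} (u : Fin N → Fin d → ℝ) (v : Fin N → Fin d → ℤ) (A : Fin N → Finset ℤ)
    (hv : ∀ i k, |v i k| ≤ 2 ^ m) {j : ℤ} (hj0 : 0 ≤ j) (hj1 : j < 2 ^ m)
    (z : Fin N → Fin d → ℤ) (hz : ∀ i k, z i k = ⌊u i k / 2 ^ m⌋) :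
    ∑ g ∈ univ.image z, ((univ.filter fun i => z i = g ∧ j ∈ A i).image fun i =>
      rd (pos (2 ^ m) (u i) (v i) j)).card ≤
      5 ^ d * ((univ.filter fun i => j ∈ A i).image fun i => rd (pos (2 ^ m) (u i) (v i) j)).card := by
  classical
  obtain ⟨C, hC⟩ : ∃ C, C = (univ.filter fun i => j ∈ A i).image fun i =>
    rd (pos (2 ^ m) (u i) (v i) j) := ⟨_, rfl⟩
  obtain ⟨B, hB⟩ : ∃ B : (Fin d → ℤ) → Finset (Fin d → ℤ), B = fun g =>
    (univ.filter fun i => z i = g ∧ j ∈ A i).image fun i => rd (pos (2 ^ m) (u i) (v i) j) :=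
    ⟨_, rfl⟩
  have hBC : ∀ g, B g ⊆ C := by
    intro g
    rw [hB, hC]
    exact image_subset_image fun i hi => mem_filter.2 ⟨mem_univ _, (mem_filter.1 hi).2.2⟩
  have h1 : ∀ g ∈ univ.image z, (B g).card = ∑ x ∈ C, if x ∈ B g then 1 else 0 := by
    intro g _
    rw [← card_filter]
    congr 1
    ext x
    rw [mem_filter]
    exact ⟨fun h => ⟨hBC g h, h⟩, fun h => h.2⟩
  have h2 : ∑ g ∈ univ.image z, (B g).card =
      ∑ x ∈ C, ((univ.image z).filter fun g => x ∈ B g).card := by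
    rw [Finset.sum_congr rfl h1, sum_comm]
    exact Finset.sum_congr rfl fun x _ => (card_filter _ _).symm
  have h3 : ∀ x ∈ C, ((univ.image z).filter fun g => x ∈ B g).card ≤ 5 ^ d := by
    intro x _
    have h4 : ((univ.image z).filter fun g => x ∈ B g) ⊆ Fintype.piFinset fun k : Fin d =>
        Finset.Icc (⌊(x k : ℝ) / 2 ^ m⌋ - 2) (⌊(x k : ℝ) / 2 ^ m⌋ + 2) := by
      intro g hg
      have h5 := (mem_filter.1 hg).2
      rw [hB] at h5
      obtain ⟨i, hi, hx⟩ := mem_image.1 h5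
      obtain ⟨h6, -⟩ := (mem_filter.1 hi).2
      rw [← h6]
      exact grp_mult hj0 hj1 (hv i) (hz i) hx
    refine (card_le_card h4).trans (le_of_eq ?_)
    rw [Fintype.card_piFinset]
    have h5 : ∀ k : Fin d, (Finset.Icc (⌊(x k : ℝ) / 2 ^ m⌋ - 2)
        (⌊(x k : ℝ) / 2 ^ m⌋ + 2)).card = 5 := fun k => by
      rw [Int.card_Icc]
      have : ⌊(x k : ℝ) / 2 ^ m⌋ + 2 + 1 - (⌊(x k : ℝ) / 2 ^ m⌋ - 2) = 5 := by ring
      rw [this]
      rfl
    rw [Finset.prod_congr rfl fun k _ => h5 k, Finset.prod_const, Finset.card_univ,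
      Fintype.card_fin]
  have h4 : ∑ g ∈ univ.image z, (B g).card ≤ 5 ^ d * C.card := by
    rw [h2]
    refine (Finset.sum_le_sum h3).trans (le_of_eq ?_)
    rw [sum_const, smul_eq_mul, mul_comm]
  rw [hB] at h4
  rw [← hC]
  exact h4

/-- **The counting inequality for all families** from the one for bounded base points. -/
theorem countE_of_countB {d : ℕ} {ε P c : ℝ} (hc : 0 < c) (h : CountB d ε P c) :
    ∃ c' : ℝ, 0 < c' ∧ CountE d ε P c' := by
  classical
  refine ⟨c / 5 ^ d, by positivity, ?_⟩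
  intro m N u v A κ hκ hinj hv hA hcard
  have hW : (0 : ℝ) < 2 ^ m := by positivity
  obtain ⟨z, hz⟩ : ∃ z : Fin N → Fin d → ℤ, z = fun i k => ⌊u i k / 2 ^ m⌋ := ⟨_, rfl⟩
  have hz' : ∀ i k, z i k = ⌊u i k / 2 ^ m⌋ := fun i k => by rw [hz]
  rw [div_one, Real.rpow_one]
  -- one group
  have hg : ∀ g : Fin d → ℤ, c * ((2 : ℝ) ^ m) ^ (-ε) *
      (2 ^ m * κ ^ P * ((univ.filter fun i => z i = g).card : ℝ)) ≤
      ∑ j ∈ Finset.Ico 0 (2 ^ m : ℤ), (((univ.filter fun i => z i = g ∧ j ∈ A i).image fun i =>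
        rd (pos (2 ^ m) (u i) (v i) j)).card : ℝ) := by
    intro g
    obtain ⟨Sg, hSg⟩ : ∃ Sg : Finset (Fin N), Sg = univ.filter fun i => z i = g := ⟨_, rfl⟩
    rw [← hSg]
    have hmS : ∀ i ∈ Sg, z i = g := fun i hi => by
      rw [hSg] at hi
      exact (mem_filter.1 hi).2
    have hmem : ∀ t : Fin Sg.card, z (Sg.equivFin.symm t : Sg) = g := fun t =>
      hmS _ (Sg.equivFin.symm t).2
    have h1 := h m Sg.card (fun t k => u (Sg.equivFin.symm t : Sg) k - 2 ^ m * (g k : ℝ))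
      (fun t => v (Sg.equivFin.symm t : Sg)) (fun t => A (Sg.equivFin.symm t : Sg)) κ hκ
      (fun a b hab => Sg.equivFin.symm.injective (Subtype.ext (hinj hab)))
      (fun t k => by
        have h2 := hmem t
        have h3 : (g k : ℝ) = ⌊u (Sg.equivFin.symm t : Sg) k / 2 ^ m⌋ := by
          rw [← hz', h2]
        have h4 := Int.floor_le (u (Sg.equivFin.symm t : Sg) k / 2 ^ m)
        have h5 := Int.lt_floor_add_one (u (Sg.equivFin.symm t : Sg) k / 2 ^ m)
        rw [← h3] at h4 h5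
        rw [le_div_iff₀ hW] at h4
        rw [div_lt_iff₀ hW] at h5
        rw [abs_le]
        constructor <;> linarith)
      (fun t k => hv _ _) (fun t => hA _) (fun t => hcard _)
    refine h1.trans (Finset.sum_le_sum fun j _ => ?_)
    rw [Nat.cast_le]
    -- the shift
    have h6 : ((univ.filter fun t : Fin Sg.card => j ∈ A (Sg.equivFin.symm t : Sg)).image
        fun t => rd (pos (2 ^ m) (fun k => u (Sg.equivFin.symm t : Sg) k - 2 ^ m * (g k : ℝ))
          (v (Sg.equivFin.symm t : Sg)) j)) ⊆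
        ((univ.filter fun i => z i = g ∧ j ∈ A i).image fun i =>
          rd (pos (2 ^ m) (u i) (v i) j)).image fun x => fun k => x k - 2 ^ m * g k := by
      intro x hx
      obtain ⟨t, ht, rfl⟩ := mem_image.1 hx
      refine mem_image.2 ⟨rd (pos (2 ^ m) (u (Sg.equivFin.symm t : Sg))
        (v (Sg.equivFin.symm t : Sg)) j), mem_image_of_mem
          (fun i => rd (pos (2 ^ m) (u i) (v i) j))
          (mem_filter.2 ⟨mem_univ _, hmem t, (mem_filter.1 ht).2⟩), ?_⟩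
      funext k
      show ⌊u (Sg.equivFin.symm t : Sg) k + (j : ℝ) / ((2 ^ m : ℕ) : ℝ) *
          v (Sg.equivFin.symm t : Sg) k⌋ - 2 ^ m * g k =
        ⌊u (Sg.equivFin.symm t : Sg) k - 2 ^ m * (g k : ℝ) + (j : ℝ) / ((2 ^ m : ℕ) : ℝ) *
          v (Sg.equivFin.symm t : Sg) k⌋
      rw [← Int.floor_sub_intCast]
      congr 1
      push_cast
      ring
    exact (card_le_card h6).trans card_image_le
  -- all groups
  have hN : (N : ℝ) = ∑ g ∈ univ.image z, ((univ.filter fun i => z i = g).card : ℝ) := by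
    have h1 := Finset.card_eq_sum_card_image z (univ : Finset (Fin N))
    rw [Finset.card_univ, Fintype.card_fin] at h1
    exact_mod_cast h1
  have h1 : c * ((2 : ℝ) ^ m) ^ (-ε) * (2 ^ m * κ ^ P * (N : ℝ)) ≤
      5 ^ d * ∑ j ∈ Finset.Ico 0 (2 ^ m : ℤ),
        (((univ.filter fun i => j ∈ A i).image fun i =>
          rd (pos (2 ^ m) (u i) (v i) j)).card : ℝ) := by
    calc c * ((2 : ℝ) ^ m) ^ (-ε) * (2 ^ m * κ ^ P * (N : ℝ)) =
          ∑ g ∈ univ.image z, c * ((2 : ℝ) ^ m) ^ (-ε) *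
            (2 ^ m * κ ^ P * ((univ.filter fun i => z i = g).card : ℝ)) := by
          rw [hN, mul_sum, mul_sum]
      _ ≤ ∑ g ∈ univ.image z, ∑ j ∈ Finset.Ico 0 (2 ^ m : ℤ),
            (((univ.filter fun i => z i = g ∧ j ∈ A i).image fun i =>
              rd (pos (2 ^ m) (u i) (v i) j)).card : ℝ) := Finset.sum_le_sum fun g _ => hg g
      _ = ∑ j ∈ Finset.Ico 0 (2 ^ m : ℤ), ∑ g ∈ univ.image z,
            (((univ.filter fun i => z i = g ∧ j ∈ A i).image fun i =>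
              rd (pos (2 ^ m) (u i) (v i) j)).card : ℝ) := sum_comm
      _ ≤ ∑ j ∈ Finset.Ico 0 (2 ^ m : ℤ), 5 ^ d * (((univ.filter fun i => j ∈ A i).image
            fun i => rd (pos (2 ^ m) (u i) (v i) j)).card : ℝ) := by
          refine Finset.sum_le_sum fun j hj => ?_
          have h2 := mem_Ico.1 hj
          exact_mod_cast grp_sum u v A hv h2.1 h2.2 z hz'
      _ = _ := by rw [mul_sum]
  have h5 : (0 : ℝ) < 5 ^ d := by positivity
  rw [div_mul_eq_mul_div, div_mul_eq_mul_div, div_le_iff₀ h5]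
  linarith

end Pool.KRN73
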