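import Pool.Agent.H73.KRN.Cnt

/-!
# Sheared copies of a family of lines

`countB_of_countF`: a counting inequality for large families gives one for families of every size, linear in the
number of lines: the union of sheared copies of a family is a large family. `countE_of_countB`: the base points
need not be bounded.
-/

set_option autoImplicit false

namespace Pool.KRN73

open Finset Real
open Pool.Agent.H32.Dense
open Pool.KFIN (CountE card_lines card_le_pow)

/-- A shift changes the number of cells at most by the factor `2 ^ d`. -/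
lemma card_shift {d : ℕ} {ι : Type} (S : Finset ι) (f : ι → Fin d → ℝ) (c : Fin d → ℝ) :
    (S.image fun i => rd (fun k => f i k + c k)).card ≤ 2 ^ d * (S.image fun i => rd (f i)).card := by
  classical
  have hsub : (S.image fun i => rd (fun k => f i k + c k)) ⊆
      ((univ : Finset (Fin d → Bool)) ×ˢ (S.image fun i => rd (f i))).image
        (fun p => fun k => p.2 k + ⌊c k⌋ + (if p.1 k then 1 else 0)) := by
    intro z hz
    obtain ⟨i, hi, rfl⟩ := mem_image.1 hz
    refine mem_image.2 ⟨(fun k => decide (⌊f i k + c k⌋ ≠ ⌊f i k⌋ + ⌊c k⌋), rd (f i)), ?_, ?_⟩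
    · exact mem_product.2 ⟨mem_univ _, mem_image_of_mem _ hi⟩
    · funext k
      have h1 := Int.le_floor_add (f i k) (c k)
      have h2 := Int.le_floor_add_floor (f i k) (c k)
      show ⌊f i k⌋ + ⌊c k⌋ + (if decide (⌊f i k + c k⌋ ≠ ⌊f i k⌋ + ⌊c k⌋) = true then 1 else 0) =
        ⌊f i k + c k⌋
      by_cases h : ⌊f i k + c k⌋ = ⌊f i k⌋ + ⌊c k⌋
      · rw [if_neg (by simp [h])]
        omega
      · rw [if_pos (by simp [h])]
        omega
  refine (card_le_card hsub).trans (card_image_le.trans (le_of_eq ?_))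
  rw [card_product, Finset.card_univ, Fintype.card_fun, Fintype.card_bool, Fintype.card_fin]

/-- **Sheared copies cover half of a box.** -/
lemma shear_cover {d : ℕ} (Bx V : Finset (Fin d → ℤ)) (hB : Bx.Nonempty) (K : ℕ) :
    ∃ w : ℕ → (Fin d → ℤ), (∀ k, w k ∈ Bx) ∧
      min ((K : ℝ) * V.card / 2) ((Bx.card : ℝ) / 2) ≤
        (((range K).biUnion fun k => V.image fun v => v + w k).card : ℝ) := by
  classical
  induction K with
  | zero =>
    obtain ⟨b, hb⟩ := hB
    refine ⟨fun _ => b, fun _ => hb, ?_⟩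
    rw [Nat.cast_zero, zero_mul, zero_div]
    exact (min_le_left _ _).trans (Nat.cast_nonneg _)
  | succ K ih =>
    obtain ⟨w, hw, hU⟩ := ih
    obtain ⟨U, hUe⟩ : ∃ U, U = (range K).biUnion fun k => V.image fun v => v + w k := ⟨_, rfl⟩
    rw [← hUe] at hU
    have hBc : 0 < Bx.card := card_pos.2 hB
    obtain ⟨b, hb, hbU⟩ : ∃ b ∈ Bx, (V.filter fun v => v + b ∈ U).card * Bx.card ≤
        V.card * U.card := by
      by_contra hcon
      push Not at hcon
      have h1 : ∑ b ∈ Bx, (V.filter fun v => v + b ∈ U).card ≤ V.card * U.card := by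
        have h2 : ∑ b ∈ Bx, (V.filter fun v => v + b ∈ U).card =
            ∑ v ∈ V, (Bx.filter fun b => v + b ∈ U).card := by
          simp only [card_filter]
          exact sum_comm
        rw [h2]
        refine (sum_le_card_nsmul V _ U.card fun v _ => ?_).trans (le_of_eq (by rw [smul_eq_mul]))
        refine card_le_card_of_injOn (fun b => v + b) (fun b hb => ?_) fun b _ b' _ h => ?_
        · rw [mem_coe, mem_filter] at hb
          exact hb.2
        · exact add_left_cancel h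
      have h3 : ∑ b ∈ Bx, V.card * U.card < ∑ b ∈ Bx,
          (V.filter fun v => v + b ∈ U).card * Bx.card :=
        sum_lt_sum_of_nonempty hB hcon
      rw [← sum_mul (f := fun b => (V.filter fun v => v + b ∈ U).card), sum_const,
        smul_eq_mul] at h3
      have h4 := Nat.mul_le_mul_right Bx.card h1
      rw [mul_comm Bx.card] at h3
      exact absurd h3 (not_lt.2 h4)
    refine ⟨fun k => if k < K then w k else b, fun k => ?_, ?_⟩
    · dsimp only
      split_ifs
      · exact hw k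
      · exact hb
    have hUn : ((range (K + 1)).biUnion fun k => V.image fun v => v + (if k < K then w k else b)) =
        U ∪ V.image fun v => v + b := by
      rw [range_add_one, biUnion_insert, union_comm]
      congr 1
      · rw [hUe]
        refine biUnion_congr rfl fun k hk => ?_
        rw [if_pos (mem_range.1 hk)]
      · rw [if_neg (lt_irrefl K)]
    simp only [hUn]
    have hUle : (U.card : ℝ) ≤ ((U ∪ V.image fun v => v + b).card : ℝ) := by
      exact_mod_cast card_le_card subset_union_left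
    by_cases hUB : (Bx.card : ℝ) / 2 ≤ U.card
    · exact (min_le_right _ _).trans (hUB.trans hUle)
    rw [not_le] at hUB
    have hBr : (0 : ℝ) < Bx.card := by exact_mod_cast hBc
    -- the new part
    have h5 : ((V.filter fun v => v + b ∈ U).card : ℝ) ≤ (V.card : ℝ) / 2 := by
      have h6 : ((V.filter fun v => v + b ∈ U).card : ℝ) * Bx.card ≤ V.card * U.card := by
        exact_mod_cast hbU
      have h7 : (V.card : ℝ) * U.card ≤ V.card * (Bx.card / 2) :=
        mul_le_mul_of_nonneg_left hUB.le (Nat.cast_nonneg _)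
      refine le_of_mul_le_mul_right ?_ hBr
      linarith
    have h8 : (U.card : ℝ) + (V.filter fun v => v + b ∉ U).card ≤
        ((U ∪ V.image fun v => v + b).card : ℝ) := by
      have h9 : U.card + ((V.filter fun v => v + b ∉ U).image fun v => v + b).card ≤
          (U ∪ V.image fun v => v + b).card := by
        rw [← card_union_of_disjoint]
        · refine card_le_card (union_subset_union_right (image_subset_image (filter_subset _ _)))
        · rw [disjoint_left]
          intro x hx hx'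
          obtain ⟨v, hv, rfl⟩ := mem_image.1 hx'
          exact (mem_filter.1 hv).2 hx
      rw [card_image_of_injective _ (add_left_injective b)] at h9
      exact_mod_cast h9
    have h10 : ((V.filter fun v => v + b ∈ U).card : ℝ) + (V.filter fun v => v + b ∉ U).card =
        V.card := by
      exact_mod_cast card_filter_add_card_filter_not (s := V) (p := fun v => v + b ∈ U)
    have h11 : (K : ℝ) * V.card / 2 ≤ U.card := by
      rcases min_le_iff.1 hU with h | h
      · exact h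
      · linarith
    refine (min_le_left _ _).trans ?_
    push_cast
    linarith

/-- The number of points of the box. -/
lemma card_box (m d : ℕ) : (2 : ℝ) ^ ((m + 1) * d) ≤
      ((Fintype.piFinset fun _ : Fin d => Finset.Icc (-(2 ^ m : ℤ)) (2 ^ m)).card : ℝ) ∧
    ((Fintype.piFinset fun _ : Fin d => Finset.Icc (-(2 ^ m : ℤ)) (2 ^ m)).card : ℝ) ≤
      3 ^ d * 2 ^ (m * d) := by
  rw [Fintype.card_piFinset, Finset.prod_const, Finset.card_univ, Fintype.card_fin, Int.card_Icc]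
  have h3 : (1 : ℤ) ≤ 2 ^ m := one_le_pow₀ (by norm_num)
  have h1 : ((2 ^ m : ℤ) + 1 - -(2 ^ m)).toNat ≤ 3 * 2 ^ m := by
    have h4 : ((3 * 2 ^ m : ℕ) : ℤ) = 3 * 2 ^ m := by push_cast; rfl
    omega
  have h2 : 2 ^ (m + 1) ≤ ((2 ^ m : ℤ) + 1 - -(2 ^ m)).toNat := by
    have h4 : ((2 ^ (m + 1) : ℕ) : ℤ) = 2 * 2 ^ m := by push_cast; ring
    omega
  constructor
  · have h5 := Nat.pow_le_pow_left h2 d
    rw [← pow_mul] at h5
    exact_mod_cast h5
  · have h5 := Nat.pow_le_pow_left h1 d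
    rw [mul_pow, ← pow_mul] at h5
    exact_mod_cast h5

/-- The counting inequality for the families with bounded base points, linear in the number of
lines. -/
def CountB (d : ℕ) (ε P c : ℝ) : Prop :=
  ∀ (m N : ℕ) (u : Fin N → Fin d → ℝ) (v : Fin N → Fin d → ℤ)
    (A : Fin N → Finset ℤ) (κ : ℝ), 0 < κ → Function.Injective v →
    (∀ i k, |u i k| ≤ 2 ^ m) → (∀ i k, |v i k| ≤ 2 ^ m) →
    (∀ i, A i ⊆ Finset.Ico 0 (2 ^ m : ℤ)) → (∀ i, κ * 2 ^ m ≤ (A i).card) →
    c * ((2 : ℝ) ^ m) ^ (-ε) * (2 ^ m * κ ^ P * (N : ℝ)) ≤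
      ∑ j ∈ Finset.Ico 0 (2 ^ m : ℤ),
        (((univ.filter fun i => j ∈ A i).image fun i => rd (pos (2 ^ m) (u i) (v i) j)).card : ℝ)

/-- **The counting inequality for families of every size** from the one for large families. -/
theorem countB_of_countF {d : ℕ} {s P c : ℝ} (hP : 1 ≤ P) (hc : 0 < c) (h : CountF d s P c) :
    ∃ c' : ℝ, 0 < c' ∧ CountB d (d - s) P c' := by
  classical
  have hc₁ : 0 < c * 2 ^ s * ((1 / 2 : ℝ) ^ P * (1 / 2) ^ P) := by positivity
  obtain ⟨c₁, hc1⟩ : ∃ c₁ : ℝ, c₁ = c * 2 ^ s * ((1 / 2 : ℝ) ^ P * (1 / 2) ^ P) := ⟨_, rfl⟩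
  rw [← hc1] at hc₁
  refine ⟨c₁ / (2 * 3 ^ d * 2 ^ d), by positivity, ?_⟩
  intro m N u v A κ hκ hinj hu hv hA hcard
  obtain ⟨Cl, hCl⟩ : ∃ Cl : ℤ → ℝ, Cl = fun j => (((univ.filter fun i => j ∈ A i).image fun i =>
    rd (pos (2 ^ m) (u i) (v i) j)).card : ℝ) := ⟨_, rfl⟩
  have hSg : (∑ j ∈ Finset.Ico 0 (2 ^ m : ℤ), (((univ.filter fun i => j ∈ A i).image fun i =>
    rd (pos (2 ^ m) (u i) (v i) j)).card : ℝ)) = ∑ j ∈ Finset.Ico 0 (2 ^ m : ℤ), Cl j := by
    rw [hCl]
  rw [hSg]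
  have hCl0 : ∀ j, 0 ≤ Cl j := fun j => by
    rw [hCl]
    exact Nat.cast_nonneg _
  rcases Nat.eq_zero_or_pos N with hN | hN
  · rw [hN, Nat.cast_zero, mul_zero, mul_zero]
    exact Finset.sum_nonneg fun j _ => hCl0 j
  have hNr : (0 : ℝ) < N := by exact_mod_cast hN
  have hW : (0 : ℝ) < 2 ^ m := by positivity
  have hWd : (0 : ℝ) < 2 ^ (m * d) := by positivity
  have hNle := card_lines hinj hv
  -- the box, the number of copies
  obtain ⟨Bx, hBx⟩ : ∃ Bx : Finset (Fin d → ℤ), Bx = Fintype.piFinset fun _ : Fin d =>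
    Finset.Icc (-(2 ^ m : ℤ)) (2 ^ m) := ⟨_, rfl⟩
  obtain ⟨hB1, hB2⟩ := card_box m d
  rw [← hBx] at hB1 hB2
  have hBne : Bx.Nonempty := by
    rw [← card_pos]
    have : (0 : ℝ) < Bx.card := lt_of_lt_of_le (by positivity) hB1
    exact_mod_cast this
  obtain ⟨V, hV⟩ : ∃ V : Finset (Fin d → ℤ), V = univ.image v := ⟨_, rfl⟩
  have hVc : V.card = N := by
    rw [hV, card_image_of_injective _ hinj, Finset.card_univ, Fintype.card_fin]
  obtain ⟨K, hK⟩ : ∃ K : ℕ, K = ⌈(Bx.card : ℝ) / N⌉₊ := ⟨_, rfl⟩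
  have hK1 : (Bx.card : ℝ) ≤ K * N := by
    have := Nat.le_ceil ((Bx.card : ℝ) / N)
    rw [← hK, div_le_iff₀ hNr] at this
    exact this
  have hK2 : (K : ℝ) * N ≤ 2 * 3 ^ d * 2 ^ (m * d) := by
    have h1 := (Nat.ceil_lt_add_one (show 0 ≤ (Bx.card : ℝ) / N by positivity)).le
    rw [← hK] at h1
    have h2 : (K : ℝ) * N ≤ ((Bx.card : ℝ) / N + 1) * N := mul_le_mul_of_nonneg_right h1 hNr.le
    rw [add_mul, div_mul_cancel₀ _ hNr.ne', one_mul] at h2
    linarith
  obtain ⟨w, hw, hU⟩ := shear_cover Bx V hBne K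
  obtain ⟨U, hUe⟩ : ∃ U, U = (range K).biUnion fun k => V.image fun v => v + w k := ⟨_, rfl⟩
  rw [← hUe, hVc] at hU
  have hU1 : (1 / 2 : ℝ) ≤ (U.card : ℝ) / 2 ^ ((m + 1) * d) := by
    rw [le_div_iff₀ (by positivity)]
    refine le_trans ?_ hU
    refine le_min ?_ ?_
    · linarith
    · linarith
  have hwb : ∀ k i, |w k i| ≤ 2 ^ m := by
    intro k i
    have h1 := hw k
    rw [hBx, Fintype.mem_piFinset] at h1
    exact abs_le.2 (Finset.mem_Icc.1 (h1 i))
  -- the large family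
  have hUm : ∀ x ∈ U, ∃ (k : ℕ) (i : Fin N), k < K ∧ x = v i + w k := by
    intro x hx
    rw [hUe] at hx
    obtain ⟨k, hk, h2⟩ := mem_biUnion.1 hx
    obtain ⟨y, hy, h3⟩ := mem_image.1 h2
    rw [hV] at hy
    obtain ⟨i, -, rfl⟩ := mem_image.1 hy
    exact ⟨k, i, mem_range.1 hk, h3.symm⟩
  have hch : ∀ t : Fin U.card, ∃ (k : ℕ) (i : Fin N), k < K ∧
      ((U.equivFin.symm t : U) : Fin d → ℤ) = v i + w k := fun t => hUm _ (U.equivFin.symm t).2
  choose kk ii hkk hii using hch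
  have h2m : Function.Injective (fun j : ℤ => 2 * j) := fun a b hab => by
    have : 2 * a = 2 * b := hab
    omega
  have hmain := h (m + 1) U.card (fun t => u (ii t))
    (fun t => ((U.equivFin.symm t : U) : Fin d → ℤ)) (fun t => (A (ii t)).image fun j => 2 * j)
    (κ / 2) (by positivity) (fun a b hab => U.equivFin.symm.injective (Subtype.ext hab))
    (fun t k => (hu (ii t) k).trans (pow_le_pow_right₀ (by norm_num) (Nat.le_succ m)))
    (fun t k => by
      rw [hii t]
      have h1 := hv (ii t) k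
      have h2 := hwb (kk t) k
      have h3 := abs_add_le (v (ii t) k) (w (kk t) k)
      show |v (ii t) k + w (kk t) k| ≤ 2 ^ (m + 1)
      rw [pow_succ]
      linarith)
    (fun t x hx => by
      obtain ⟨j, hj, rfl⟩ := mem_image.1 hx
      have h1 := mem_Ico.1 (hA _ hj)
      rw [mem_Ico, pow_succ]
      constructor <;> linarith)
    (fun t => by
      rw [card_image_of_injective _ h2m, pow_succ]
      have h1 := hcard (ii t)
      linarith)
  -- the cells of the large family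
  have hcell : (∑ j ∈ Finset.Ico 0 (2 ^ (m + 1) : ℤ),
      (((univ.filter fun t : Fin U.card => j ∈ (A (ii t)).image fun j => 2 * j).image fun t =>
        rd (pos (2 ^ (m + 1)) (u (ii t)) ((U.equivFin.symm t : U) : Fin d → ℤ) j)).card : ℝ)) ≤
      K * 2 ^ d * ∑ j ∈ Finset.Ico 0 (2 ^ m : ℤ), Cl j := by
    obtain ⟨g, hg⟩ : ∃ g : ℤ → ℝ, g = fun j =>
      (((univ.filter fun t : Fin U.card => j ∈ (A (ii t)).image fun j => 2 * j).image fun t =>
        rd (pos (2 ^ (m + 1)) (u (ii t)) ((U.equivFin.symm t : U) : Fin d → ℤ) j)).card : ℝ) :=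
      ⟨_, rfl⟩
    have e1 : (∑ j ∈ Finset.Ico 0 (2 ^ (m + 1) : ℤ),
      (((univ.filter fun t : Fin U.card => j ∈ (A (ii t)).image fun j => 2 * j).image fun t =>
        rd (pos (2 ^ (m + 1)) (u (ii t)) ((U.equivFin.symm t : U) : Fin d → ℤ) j)).card : ℝ)) =
        ∑ j ∈ Finset.Ico 0 (2 ^ (m + 1) : ℤ), g j := by rw [hg]
    have e2 : ∑ j ∈ (Finset.Ico 0 (2 ^ m : ℤ)).image (fun j => 2 * j), g j =
        ∑ j ∈ Finset.Ico 0 (2 ^ (m + 1) : ℤ), g j := by
      refine Finset.sum_subset (fun x hx => ?_) fun x hx hx' => ?_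
      · obtain ⟨j, hj, rfl⟩ := mem_image.1 hx
        have h1 := mem_Ico.1 hj
        rw [mem_Ico, pow_succ]
        constructor <;> linarith
      · rw [hg]
        simp only
        rw [Nat.cast_eq_zero, card_eq_zero, image_eq_empty, filter_eq_empty_iff]
        intro t _ ht
        obtain ⟨j, hj, rfl⟩ := mem_image.1 ht
        exact hx' (mem_image_of_mem _ (hA _ hj))
    rw [e1, ← e2, sum_image fun a _ b _ hab => h2m hab, mul_sum]
    refine Finset.sum_le_sum fun j hj => ?_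
    -- one time
    have h1 : ((univ.filter fun t : Fin U.card => 2 * j ∈ (A (ii t)).image fun j => 2 * j).image
        fun t => rd (pos (2 ^ (m + 1)) (u (ii t)) ((U.equivFin.symm t : U) : Fin d → ℤ) (2 * j))) ⊆
        (range K).biUnion fun k => (univ.filter fun i => j ∈ A i).image fun i =>
          rd (fun l => pos (2 ^ m) (u i) (v i) j l + (j : ℝ) / 2 ^ m * w k l) := by
      intro x hx
      obtain ⟨t, ht, rfl⟩ := mem_image.1 hx
      have ht' := (mem_filter.1 ht).2
      obtain ⟨j', hj', hjj⟩ := mem_image.1 ht'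
      have hj2 : j' = j := h2m hjj
      rw [hj2] at hj'
      refine mem_biUnion.2 ⟨kk t, mem_range.2 (hkk t), mem_image.2 ⟨ii t,
        mem_filter.2 ⟨mem_univ _, hj'⟩, ?_⟩⟩
      congr 1
      funext l
      rw [hii t]
      show u (ii t) l + (j : ℝ) / ((2 ^ m : ℕ) : ℝ) * v (ii t) l + (j : ℝ) / 2 ^ m * w (kk t) l =
        u (ii t) l + ((2 * j : ℤ) : ℝ) / ((2 ^ (m + 1) : ℕ) : ℝ) *
          ((v (ii t) l + w (kk t) l : ℤ) : ℝ)
      push_cast
      rw [pow_succ]
      field_simp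
      ring
    have h2 := (card_le_card h1).trans card_biUnion_le
    have h3 : ∀ k ∈ range K, ((univ.filter fun i => j ∈ A i).image fun i =>
        rd (fun l => pos (2 ^ m) (u i) (v i) j l + (j : ℝ) / 2 ^ m * w k l)).card ≤
        2 ^ d * ((univ.filter fun i => j ∈ A i).image fun i =>
          rd (pos (2 ^ m) (u i) (v i) j)).card := fun k _ =>
      card_shift _ (fun i => pos (2 ^ m) (u i) (v i) j) fun l => (j : ℝ) / 2 ^ m * w k l
    have h4 := h2.trans (Finset.sum_le_sum h3)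
    rw [sum_const, card_range, smul_eq_mul] at h4
    rw [hg, hCl]
    have h5 : ((((univ.filter fun t : Fin U.card => 2 * j ∈ (A (ii t)).image
        fun j => 2 * j).image fun t => rd (pos (2 ^ (m + 1)) (u (ii t))
          ((U.equivFin.symm t : U) : Fin d → ℤ) (2 * j))).card : ℕ) : ℝ) ≤
        ((K * (2 ^ d * ((univ.filter fun i => j ∈ A i).image fun i =>
          rd (pos (2 ^ m) (u i) (v i) j)).card) : ℕ) : ℝ) := Nat.cast_le.2 h4
    push_cast at h5
    linarith
  have hall := hmain.trans hcell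
  -- the numbers
  have hκP : (κ / 2) ^ P = κ ^ P * (1 / 2) ^ P := by
    rw [div_eq_mul_one_div, Real.mul_rpow hκ.le (by norm_num)]
  have h2s : ((2 : ℝ) ^ (m + 1)) ^ s = 2 ^ s * ((2 : ℝ) ^ m) ^ s := by
    rw [pow_succ, mul_comm, Real.mul_rpow (by norm_num) hW.le]
  have hlow : c₁ * ((2 : ℝ) ^ m) ^ s * (2 ^ m * κ ^ P) ≤ c * ((2 : ℝ) ^ (m + 1)) ^ s *
      (2 ^ (m + 1) * (κ / 2) ^ P * ((U.card : ℝ) / 2 ^ ((m + 1) * d)) ^ P) := by
    have h1 : ((1 / 2 : ℝ)) ^ P ≤ ((U.card : ℝ) / 2 ^ ((m + 1) * d)) ^ P :=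
      Real.rpow_le_rpow (by norm_num) hU1 (by linarith)
    have h2 : (2 : ℝ) ^ m ≤ 2 ^ (m + 1) := pow_le_pow_right₀ (by norm_num) (Nat.le_succ m)
    calc c₁ * ((2 : ℝ) ^ m) ^ s * (2 ^ m * κ ^ P) = c * (2 ^ s * ((2 : ℝ) ^ m) ^ s) *
          (2 ^ m * (κ ^ P * (1 / 2) ^ P) * (1 / 2) ^ P) := by
          rw [hc1]
          ring
      _ ≤ c * (2 ^ s * ((2 : ℝ) ^ m) ^ s) * (2 ^ (m + 1) * (κ ^ P * (1 / 2) ^ P) *
          ((U.card : ℝ) / 2 ^ ((m + 1) * d)) ^ P) := by gcongr
      _ = _ := by rw [hκP, h2s]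
  obtain ⟨Sg, hSgg⟩ : ∃ Sg : ℝ, Sg = ∑ j ∈ Finset.Ico 0 (2 ^ m : ℤ), Cl j := ⟨_, rfl⟩
  rw [← hSgg] at hall ⊢
  have hSg0 : 0 ≤ Sg := by
    rw [hSgg]
    exact Finset.sum_nonneg fun j _ => hCl0 j
  have h1 : c₁ * ((2 : ℝ) ^ m) ^ s * (2 ^ m * κ ^ P) * N ≤ 2 * 3 ^ d * 2 ^ (m * d) * 2 ^ d * Sg := by
    calc c₁ * ((2 : ℝ) ^ m) ^ s * (2 ^ m * κ ^ P) * N ≤ K * 2 ^ d * Sg * N :=
          mul_le_mul_of_nonneg_right (hlow.trans hall) hNr.le
      _ = K * N * (2 ^ d * Sg) := by ring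
      _ ≤ 2 * 3 ^ d * 2 ^ (m * d) * (2 ^ d * Sg) := by gcongr
      _ = _ := by ring
  have h2 : ((2 : ℝ) ^ m) ^ (-((d : ℝ) - s)) * 2 ^ (m * d) = ((2 : ℝ) ^ m) ^ s := by
    rw [pow_mul, ← Real.rpow_natCast ((2 : ℝ) ^ m) d, ← Real.rpow_add hW]
    congr 1
    ring
  have h3 : c₁ / (2 * 3 ^ d * 2 ^ d) * ((2 : ℝ) ^ m) ^ (-((d : ℝ) - s)) * (2 ^ m * κ ^ P * N) *
      (2 * 3 ^ d * 2 ^ (m * d) * 2 ^ d) = c₁ * ((2 : ℝ) ^ m) ^ s * (2 ^ m * κ ^ P) * N := by
    rw [← h2]
    field_simp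
  refine le_of_mul_le_mul_right ?_ (show (0 : ℝ) < 2 * 3 ^ d * 2 ^ (m * d) * 2 ^ d by positivity)
  rw [h3]
  linarith

end Pool.KRN73
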